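import Pool.Agent.L0h68.EC.Poly

/-!
# Edge cover polynomials of connected graphs of minimum degree two

`Pool.Agent.Results.MP_a87573_co.DistinctRoots.edgeCoverPoly G` is the edge cover polynomial
`E(G, x)`: the coefficient of `x ^ i` is the number of edge covering sets with exactly `i` edges.

The theorem `result` says that for a connected graph `G` with `δ(G) = 2` which is not a triangle,
`E(G, x)` has at least three distinct complex roots. This is Q1 (in the affirmative).

Proof. Suppose there are at most two distinct roots. Then `E = X ^ a (X + c) ^ b` with `a + b = m`,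
and comparison of the three top coefficients gives `b c = m` and `a c = 2 n₂`, where `n₂` is the
number of vertices of degree two. As `c` is an integer, `c = 2` or `c = 3`. The number `a` is the
smallest size of an edge covering. The Tutte-Berge formula gives a barrier `A`, and counting edges
at the components of `G - A` gives `2 a ≤ m` or `2 a ≤ n + 1`; this leaves, apart from the triangle
and graphs with five vertices and six edges (excluded by `E(-1)`), only `c = 2`, `m = 2M`,
`n₂ = a = b = M`, and equality in the edge count: every component of `G - A` is a vertex of degree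
two, or a triangle with two vertices of degree two which is joined to `A` by one edge. Then there
are fewer than `3 ^ M = E(1)` edge coverings, since the coverings of `V \ A` number at most `3 ^ M`
and one of them leaves a vertex of `A` uncovered; contradiction.
-/

set_option autoImplicit false
set_option linter.unusedSectionVars false
set_option linter.unusedVariables false

namespace Pool.Agent.Results.MP_2a9600_co.ThreeRoots

open Finset Polynomial Pool.Agent.L0h68.EC Pool.Agent.Results.MP_a87573_co.DistinctRoots

/-- For every connected graph `G` with minimum degree two which is not isomorphic to `K₃`, the edge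
cover polynomial of `G` has at least three distinct complex roots. -/
theorem result : ∀ (V : Type) [Fintype V] [DecidableEq V] (G : SimpleGraph V) [DecidableRel G.Adj],
    G.Connected → G.minDegree = 2 → ¬ Nonempty (G ≃g SimpleGraph.completeGraph (Fin 3)) →
    3 ≤ Set.encard {z : ℂ | (edgeCoverPoly G).eval z = 0} := by
  intro V _ _ G _ hG hδ hK
  by_contra hlt3
  rw [not_le] at hlt3
  obtain ⟨E, hEdef⟩ : ∃ E, E = edgeCoverPoly G := ⟨_, rfl⟩
  obtain ⟨m, hmdef⟩ : ∃ m, m = #G.edgeFinset := ⟨_, rfl⟩
  obtain ⟨n, hndef⟩ : ∃ n, n = Fintype.card V := ⟨_, rfl⟩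
  have hd : ∀ v, 2 ≤ G.degree v := fun v => hδ ▸ G.minDegree_le_degree v
  have hne : Nonempty V := hG.nonempty
  obtain ⟨v0, hv0⟩ := G.exists_minimal_degree_vertex
  rw [hδ] at hv0
  -- sizes
  have hn3 : 3 ≤ n := by
    have := G.degree_lt_card_verts v0
    omega
  have hsumdeg := G.sum_degrees_eq_twice_card_edges
  rw [← hmdef] at hsumdeg
  have hnm : n ≤ m := by
    have h1 : 2 * n ≤ ∑ v : V, G.degree v := by
      rw [hndef, ← card_univ, mul_comm, ← smul_eq_mul, ← sum_const]
      exact sum_le_sum fun v _ => hd v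
    omega
  have hn2n : n2 G univ ≤ n := by
    rw [hndef, ← card_univ]; exact card_filter_le _ _
  have hn2pos : 1 ≤ n2 G univ := by
    exact card_pos.2 ⟨v0, mem_filter.2 ⟨mem_univ _, hv0.symm⟩⟩
  -- the polynomial
  have hmin : G.minDegree ≤ #G.edgeFinset := by rw [hδ, ← hmdef]; omega
  obtain ⟨hmon, hdeg⟩ := monic_poly G (by omega) hmin
  rw [← hEdef] at hmon hdeg
  rw [← hmdef] at hdeg
  have hset : {z : ℂ | (edgeCoverPoly G).eval z = 0} = (E.roots.toFinset : Set ℂ) := by
    ext z
    simp [hmon.ne_zero, IsRoot, ← hEdef]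
  have hge2 := Pool.Agent.Results.MP_a87573_co.DistinctRoots.result V G
  rw [hset, Set.encard_coe_eq_coe_finsetCard] at hlt3 hge2
  rw [hδ] at hge2
  have hc2 : #E.roots.toFinset = 2 := by
    have h1 : 2 ≤ #E.roots.toFinset := by exact_mod_cast hge2
    have h2 : #E.roots.toFinset < 3 := by exact_mod_cast hlt3
    omega
  have hE0 : E.eval 0 = 0 := by
    rw [hEdef, poly_eq_sum, eval_finsetSum]
    refine sum_eq_zero fun S hS => ?_
    have hS' := (mem_filter.mp hS).2 v0
    obtain ⟨e, he, -⟩ := hS'
    have : #S ≠ 0 := by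
      rw [Ne, card_eq_zero]; rintro rfl; simp at he
    simp [this]
  have h0mem : (0 : ℂ) ∈ E.roots.toFinset := by
    rw [Multiset.mem_toFinset, mem_roots hmon.ne_zero]; exact hE0
  obtain ⟨z, hz⟩ : ∃ z, E.roots.toFinset.erase 0 = {z} := by
    rw [← card_eq_one, card_erase_of_mem h0mem, hc2]
  have hz0 : z ≠ 0 := by
    have : z ∈ E.roots.toFinset.erase 0 := by rw [hz]; simp
    exact (mem_erase.1 this).1
  have hroots : E.roots.toFinset = {0, z} := by
    rw [← insert_erase h0mem, hz]
  -- factorisation
  obtain ⟨a, ha⟩ : ∃ a, a = E.roots.count 0 := ⟨_, rfl⟩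
  obtain ⟨b, hb⟩ : ∃ b, b = E.roots.count z := ⟨_, rfl⟩
  have hfac : E = X ^ a * (X - C z) ^ b := by
    have h1 := (IsAlgClosed.splits E).eq_prod_roots_of_monic hmon
    rw [Finset.prod_multiset_map_count, hroots, prod_pair hz0.symm, ← ha, ← hb] at h1
    rw [C_0, sub_zero] at h1
    exact h1
  have hapos : 1 ≤ a := by
    rw [ha]; exact Multiset.one_le_count_iff_mem.2 (Multiset.mem_toFinset.1 h0mem)
  have hbpos : 1 ≤ b := by
    rw [hb]
    refine Multiset.one_le_count_iff_mem.2 (Multiset.mem_toFinset.1 ?_)
    rw [hroots]; simp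
  have habm : a + b = m := by
    rw [← hdeg]
    conv_rhs => rw [hfac]
    rw [(monic_X_pow a).natDegree_mul ((monic_X_sub_C z).pow b), natDegree_X_pow, natDegree_pow,
      natDegree_X_sub_C, mul_one]
  -- top coefficients
  obtain ⟨a', rfl⟩ : ∃ a', a = a' + 1 := ⟨a - 1, by omega⟩
  obtain ⟨b', rfl⟩ : ∃ b', b = b' + 1 := ⟨b - 1, by omega⟩
  obtain ⟨Q, hQ⟩ : ∃ Q : ℂ[X], Q = X ^ a' * (X - C z) ^ b' := ⟨_, rfl⟩
  have hQmon : Q.Monic := by
    rw [hQ]; exact (monic_X_pow a').mul ((monic_X_sub_C z).pow b')
  have hQdeg : Q.natDegree = a' + b' := by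
    rw [hQ, (monic_X_pow a').natDegree_mul ((monic_X_sub_C z).pow b'), natDegree_X_pow,
      natDegree_pow, natDegree_X_sub_C, mul_one]
  have hT : auxT G = C ((m : ℂ) + (b' + 1) * z) * (Q * X) - C ((a' + 1) * z) * Q := by
    rw [auxT, ← hEdef, ← hmdef, hfac, hQ, derivative_mul, derivative_X_pow, derivative_X_sub_C_pow,
      ← habm]
    push_cast
    simp only [map_add, map_mul, map_one, map_natCast]
    ring
  have hcoef1 : (m : ℂ) + (b' + 1) * z = 0 := by
    have h1 : (auxT G).coeff (a' + b' + 1) = 0 := by
      apply coeff_eq_zero_of_natDegree_lt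
      have := auxT_natDegree G hmin
      rw [hδ, ← hmdef] at this
      omega
    rw [hT, coeff_sub, coeff_C_mul, coeff_C_mul, coeff_mul_X] at h1
    have h2 : Q.coeff (a' + b') = 1 := by rw [← hQdeg]; exact hQmon.coeff_natDegree
    have h3 : Q.coeff (a' + b' + 1) = 0 := coeff_eq_zero_of_natDegree_lt (by omega)
    rw [h2, h3] at h1
    simpa using h1
  have hcoef2 : -((a' + 1) * z) = 2 * (n2 G univ : ℂ) := by
    have h1 := auxT_coeff hG hd (by omega) (by omega)
    rw [← hmdef, hT, hcoef1, C_0, zero_mul, zero_sub, coeff_neg, coeff_C_mul,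
      show m - 2 = a' + b' by omega] at h1
    have h2 : Q.coeff (a' + b') = 1 := by rw [← hQdeg]; exact hQmon.coeff_natDegree
    rw [h2, mul_one] at h1
    exact h1
  -- the second root is an integer
  have hb0 : ((b' : ℂ) + 1) ≠ 0 := by exact_mod_cast Nat.succ_ne_zero b'
  have hzr : -z = (((m : ℚ) / (b' + 1) : ℚ) : ℂ) := by
    push_cast
    rw [eq_div_iff hb0]
    linear_combination -hcoef1
  have hcoefE : ∀ i, E.coeff i = (coverCount G i : ℂ) ∨ E.coeff i = 0 := by
    intro i
    rw [hEdef, edgeCoverPoly, finsetSum_coeff]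
    have h1 : ∀ j ∈ range (#G.edgeFinset + 1), ((coverCount G j : ℂ[X]) * X ^ j).coeff i =
        if i = j then (coverCount G i : ℂ) else 0 := by
      intro j _
      rw [← C_eq_natCast, coeff_C_mul, coeff_X_pow]
      split_ifs with h
      · rw [h, mul_one]
      · rw [mul_zero]
    rw [sum_congr rfl h1, sum_ite_eq]
    split_ifs
    · exact Or.inl rfl
    · exact Or.inr rfl
  obtain ⟨k, hk⟩ : ∃ k : ℤ, -z = k := by
    have h1 : ∃ N : ℕ, (-z) ^ (b' + 1) = N := by
      have h2 : E.coeff (a' + 1) = (-z) ^ (b' + 1) := by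
        rw [hfac]
        have : (X ^ (a' + 1) * (X - C z) ^ (b' + 1) : ℂ[X]).coeff (0 + (a' + 1)) =
          ((X - C z) ^ (b' + 1)).coeff 0 := coeff_X_pow_mul _ _ _
        rw [zero_add] at this
        rw [this, coeff_zero_eq_eval_zero]
        simp
      rcases hcoefE (a' + 1) with h3 | h3
      · exact ⟨coverCount G (a' + 1), by rw [← h2, h3]⟩
      · exact ⟨0, by rw [← h2, h3]; simp⟩
    obtain ⟨N, hN⟩ := h1
    have h4 : ((m : ℚ) / (b' + 1)) ^ (b' + 1) = (N : ℚ) := by
      rw [hzr] at hN
      exact_mod_cast hN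
    obtain ⟨y, hy⟩ := IsIntegrallyClosed.exists_algebraMap_eq_of_isIntegral_pow (R := ℤ) (K := ℚ)
      (x := (m : ℚ) / (b' + 1)) (n := b' + 1) (by omega)
      (by rw [h4]; exact isIntegral_algebraMap (R := ℤ) (A := ℚ) (x := (N : ℤ)) )
    refine ⟨y, ?_⟩
    rw [hzr, ← hy]
    simp
  have hk1 : ((b' : ℤ) + 1) * k = m := by
    have : ((b' : ℂ) + 1) * k = m := by
      rw [← hk]; linear_combination -hcoef1
    exact_mod_cast this
  have hk2 : ((a' : ℤ) + 1) * k = 2 * (n2 G univ : ℤ) := by
    have : ((a' : ℂ) + 1) * k = 2 * (n2 G univ : ℂ) := by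
      rw [← hk]; linear_combination hcoef2
    exact_mod_cast this
  have hk3 : (m : ℤ) * k = 2 * (n2 G univ : ℤ) + m := by
    have : (m : ℤ) = (a' + 1) + (b' + 1) := by exact_mod_cast habm.symm
    calc (m : ℤ) * k = ((a' : ℤ) + 1) * k + ((b' : ℤ) + 1) * k := by rw [this]; ring
      _ = 2 * (n2 G univ : ℤ) + m := by rw [hk1, hk2]
  have hmpos : (0 : ℤ) < m := by exact_mod_cast (by omega : 0 < m)
  have hk23 : k = 2 ∨ k = 3 := by
    have h1 : (m : ℤ) * k > m * 1 := by
      have : (1 : ℤ) ≤ n2 G univ := by exact_mod_cast hn2pos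
      linarith
    have h2 : (m : ℤ) * k ≤ m * 3 := by
      have : (n2 G univ : ℤ) ≤ m := by exact_mod_cast hn2n.trans hnm
      linarith
    have h3 := lt_of_mul_lt_mul_left h1 hmpos.le
    have h4 := le_of_mul_le_mul_left h2 hmpos
    omega
  -- smallest coverings
  have hsmall : ∀ S ⊆ G.edgeFinset, IsEdgeCovering S → a' + 1 ≤ #S := by
    intro S hS hcov
    by_contra hlt
    rw [not_le] at hlt
    have h1 : E.coeff #S = 0 := by
      rw [hfac, coeff_X_pow_mul', if_neg (by omega)]
    have h2 : E.coeff #S = (coverCount G #S : ℂ) := by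
      rw [hEdef, edgeCoverPoly, finsetSum_coeff]
      have h1 : ∀ j ∈ range (#G.edgeFinset + 1), ((coverCount G j : ℂ[X]) * X ^ j).coeff #S =
          if #S = j then (coverCount G #S : ℂ) else 0 := by
        intro j _
        rw [← C_eq_natCast, coeff_C_mul, coeff_X_pow]
        split_ifs with h
        · rw [h, mul_one]
        · rw [mul_zero]
      rw [sum_congr rfl h1, sum_ite_eq, if_pos]
      rw [mem_range]
      have := card_le_card hS
      omega
    rw [h1] at h2
    have h3 : coverCount G #S = 0 := by exact_mod_cast h2.symm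
    unfold coverCount at h3
    rw [card_eq_zero, filter_eq_empty_iff] at h3
    exact h3 (mem_powerset.2 hS) ⟨rfl, hcov⟩
  rcases hk23 with rfl | rfl
  · -- c = 2
    have hb1 : m = 2 * (b' + 1) := by
      have : (m : ℤ) = 2 * (b' + 1) := by linarith
      exact_mod_cast this
    have ha1 : n2 G univ = a' + 1 := by
      have : (n2 G univ : ℤ) = a' + 1 := by linarith
      exact_mod_cast this
    have hab : a' = b' := by omega
    subst hab
    have hz2 : z = -2 := by
      have : -z = 2 := by rw [hk]; norm_num
      linear_combination -this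
    by_cases hbig : n + 2 ≤ 2 * (a' + 1)
    · have h1 := covers_lt hG hd (a' + 1) (by omega) ha1 hsmall (by omega)
      have h2 : E.eval 1 = (#{S ∈ G.edgeFinset.powerset | IsEdgeCovering S} : ℕ) := by
        rw [hEdef, poly_eq_sum, eval_finsetSum]
        simp
      rw [hfac, hz2] at h2
      have h3 : ((3 ^ (a' + 1) : ℕ) : ℂ) =
          (#{S ∈ G.edgeFinset.powerset | IsEdgeCovering S} : ℕ) := by
        rw [← h2]
        simp only [eval_mul, eval_pow, eval_X, eval_sub, eval_C, one_pow, one_mul]
        push_cast
        norm_num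
      have h4 : 3 ^ (a' + 1) = #{S ∈ G.edgeFinset.powerset | IsEdgeCovering S} := by
        exact_mod_cast h3
      omega
    · -- n = 5, m = 6
      have h1 : 3 * n ≤ ∑ v : V, G.degree v + n2 G univ := by
        unfold n2
        rw [hndef, card_filter, ← sum_add_distrib, ← card_univ, mul_comm, ← smul_eq_mul,
          ← sum_const]
        refine sum_le_sum fun v _ => ?_
        have := hd v
        split_ifs with h <;> omega
      have h2 := SimpleGraph.card_edgeFinset_le_card_choose_two (G := G)
      rw [← hmdef, ← hndef] at h2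
      have h3 : n = 3 ∨ n = 4 ∨ n = 5 := by omega
      have h4 : n = 5 ∧ m = 6 := by
        rcases h3 with h | h | h
        · rw [h] at h2
          have : Nat.choose 3 2 = 3 := rfl
          omega
        · omega
        · omega
      obtain ⟨t, ht⟩ := five hd (by omega) (by omega : #G.edgeFinset = 6)
      rw [← hEdef, hfac, hz2, show a' = 2 by omega] at ht
      simp only [eval_mul, eval_pow, eval_X, eval_sub, eval_C] at ht
      norm_num at ht
      have h5 : ((-1 : ℤ) : ℂ) = ((t : ℤ) : ℂ) := by
        push_cast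
        exact ht
      have h6 : (-1 : ℤ) = t := by exact_mod_cast h5
      omega
  · -- c = 3
    have hb1 : m = 3 * (b' + 1) := by
      have : (m : ℤ) = 3 * (b' + 1) := by linarith
      exact_mod_cast this
    have ha1 : 2 * n2 G univ = 3 * (a' + 1) := by
      have : 2 * (n2 G univ : ℤ) = 3 * (a' + 1) := by linarith
      exact_mod_cast this
    have hnm' : n = m := by omega
    have hsz : 2 * (a' + 1) < n + 2 := by
      by_contra hbig
      rw [not_lt] at hbig
      obtain ⟨A, F, hp, hor⟩ := barrier hd (a' + 1) hsmall (by omega)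
      have hA : A.Nonempty := by
        apply barrier_nonempty hG hp (k := a' + 1) (by omega)
        rcases hor with h | h <;> omega
      have hE := part_edges hG hd hp hA
      rcases hor with h | h <;> omega
    have hn3' : n = 3 := by omega
    apply hK
    have htop : G = SimpleGraph.completeGraph V := by
      ext x y
      rw [SimpleGraph.completeGraph_eq_top, SimpleGraph.top_adj]
      refine ⟨fun h => h.ne, fun h => ?_⟩
      have h1 : G.neighborFinset x = univ.erase x := by
        apply eq_of_subset_of_card_le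
        · intro w hw
          rw [SimpleGraph.mem_neighborFinset] at hw
          exact mem_erase.2 ⟨hw.ne.symm, mem_univ _⟩
        · rw [card_erase_of_mem (mem_univ _), card_univ, ← hndef, hn3',
            SimpleGraph.card_neighborFinset_eq_degree]
          exact hd x
      rw [← SimpleGraph.mem_neighborFinset, h1]
      exact mem_erase.2 ⟨h.symm, mem_univ _⟩
    have e : V ≃ Fin 3 := Fintype.equivFinOfCardEq (by omega)
    rw [htop]
    exact ⟨SimpleGraph.Iso.completeGraph e⟩

end Pool.Agent.Results.MP_2a9600_co.ThreeRoots
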